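import Pool.Agent.Lib.ALLO.XFinal
import Pool.Agent.Lib.ALLO_h99.Ind
import Pool.Agent.Lib.ALLY.Fin
import Pool.Agent.Lib.ALLZO.ZMain
import Pool.Agent.Lib.ALL_h25.RealFull
import Pool.Agent.Lib.ALL_h26.Bound

/-!
# PROJECT ALL: embedded local uniformization in large characteristic, values in any ordered field
-/

set_option autoImplicit false

namespace Pool.Agent.ALLF

universe u w

/-- Embedded local uniformization of the zero-dimensional valuations, `p > (n+1) 2^(3n-1) (n!)^2`. -/
theorem embAll_large (k : Type u) [Field k] [IsAlgClosed k] (𝕂 : Type w) [Field 𝕂] [LinearOrder 𝕂]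
    [IsStrictOrderedRing 𝕂] (p : ℕ) [Fact p.Prime] [CharP k p] (n : ℕ) (hn : dimBound n < p) :
    ALLO.EmbAll k 𝕂 n :=
  ALLO.embAll_ind k 𝕂 p
    (fun n h => ALLO.xstmt k 𝕂 p n Fact.out h)
    (fun n h => ALLY.yStmt k 𝕂 p n h)
    (fun n _ => ALLZO.H18.zStmt k 𝕂 p n) n hn

/-- Log uniformization of the real valuations, with any residue field. -/
theorem realCaseFull_large (p : ℕ) [Fact p.Prime] (k : Type u) [Field k] [IsAlgClosed k]
    [CharP k p] : RealCaseFull dimBound p k :=
  realCaseFull_of fun 𝕂 _ _ _ n h => embAll_large k 𝕂 p n h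

end Pool.Agent.ALLF
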